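import Pool.Agent.Helper10.CR.Goals2

/-!
# Project CR, packet CR-EXII: choice of bases in case II
-/

universe u

namespace Pool.Agent.Helper33.CR

open Pool.Agent.Helper10.CR
open Pool.Agent.Helper10.Width Pool.Agent.Helper72.Width Pool.Agent.Helper78.SD
open scoped QuadraticAlgebra

section

variable {k : Type u} [Field k] {α β : k} {X : RS k 7}

theorem add7 {a₀ a₁ a₂ a₃ a₄ a₅ a₆ b₀ b₁ b₂ b₃ b₄ b₅ b₆ c₀ c₁ c₂ c₃ c₄ c₅ c₆ : X.V}
    (ha : ![a₀, a₁, a₂, a₃, a₄, a₅, a₆] ∈ X.Rel) (hb : ![b₀, b₁, b₂, b₃, b₄, b₅, b₆] ∈ X.Rel)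
    (s t : k) (h0 : c₀ = s • a₀ + t • b₀) (h1 : c₁ = s • a₁ + t • b₁)
    (h2 : c₂ = s • a₂ + t • b₂) (h3 : c₃ = s • a₃ + t • b₃) (h4 : c₄ = s • a₄ + t • b₄)
    (h5 : c₅ = s • a₅ + t • b₅) (h6 : c₆ = s • a₆ + t • b₆) :
    ![c₀, c₁, c₂, c₃, c₄, c₅, c₆] ∈ X.Rel := by
  have h := add_mem (X.Rel.smul_mem s ha) (X.Rel.smul_mem t hb)
  have e : ![c₀, c₁, c₂, c₃, c₄, c₅, c₆] =
      s • ![a₀, a₁, a₂, a₃, a₄, a₅, a₆] + t • ![b₀, b₁, b₂, b₃, b₄, b₅, b₆] := by
    ext i
    fin_cases i <;> simp [h0, h1, h2, h3, h4, h5, h6]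
  rw [e]
  exact h

/-- The domain of the relation `Δ`. -/
def VD (X : RS k 7) : Submodule k X.V where
  carrier := {y | ∃ y', ![y, y', 0, 0, 0, 0, 0] ∈ X.Rel}
  zero_mem' := by
    refine ⟨0, ?_⟩
    have : ![(0 : X.V), 0, 0, 0, 0, 0, 0] = 0 := by
      ext i
      fin_cases i <;> rfl
    rw [this]
    exact zero_mem _
  add_mem' := by
    rintro y z ⟨y', hy⟩ ⟨z', hz⟩
    exact ⟨y' + z', add7 hy hz 1 1 (by simp) (by simp) (by simp) (by simp) (by simp) (by simp)
      (by simp)⟩
  smul_mem' := by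
    rintro c y ⟨y', hy⟩
    exact ⟨c • y', add7 hy hy c 0 (by simp) (by simp) (by simp) (by simp) (by simp) (by simp)
      (by simp)⟩

theorem uniq (P : PII α β X) {y y' y'' : X.V} (h : ![y, y', 0, 0, 0, 0, 0] ∈ X.Rel)
    (h' : ![y, y'', 0, 0, 0, 0, 0] ∈ X.Rel) : y' = y'' := by
  have := P.d2 (y' - y'') (add7 h h' 1 (-1) (by simp) (by simp [sub_eq_add_neg]) (by simp)
    (by simp) (by simp) (by simp) (by simp))
  exact sub_eq_zero.mp this

/-- The operator `λ`. -/
noncomputable def lam (P : PII α β X) : Module.End k (VD X) where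
  toFun y := ⟨y.2.choose, ⟨_, P.d1 _ _ y.2.choose_spec⟩⟩
  map_add' y z := by
    apply Subtype.ext
    refine uniq P (y + z).2.choose_spec ?_
    exact add7 y.2.choose_spec z.2.choose_spec 1 1 (by simp) (by simp) (by simp) (by simp)
      (by simp) (by simp) (by simp)
  map_smul' c y := by
    apply Subtype.ext
    refine uniq P (c • y).2.choose_spec ?_
    exact add7 y.2.choose_spec y.2.choose_spec c 0 (by simp) (by simp) (by simp) (by simp)
      (by simp) (by simp) (by simp)

theorem lam_mem (P : PII α β X) (y : VD X) :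
    ![(y : X.V), (lam P y : X.V), 0, 0, 0, 0, 0] ∈ X.Rel := y.2.choose_spec

theorem lam_sq (P : PII α β X) : lam P * lam P = α • 1 + β • lam P := by
  ext y
  refine uniq P (lam_mem P (lam P y)) ?_
  exact P.d1 _ _ (lam_mem P y)

/-- The ring homomorphism to the endomorphisms. -/
noncomputable def act (P : PII α β X) : QuadraticAlgebra k α β →ₐ[k] Module.End k (VD X) :=
  QuadraticAlgebra.lift ⟨lam P, lam_sq P⟩

theorem act_omega (P : PII α β X) : act P ω = lam P := by
  simp [act, QuadraticAlgebra.lift]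

theorem act_mk (P : PII α β X) (s t : k) : act P ⟨s, t⟩ = s • 1 + t • lam P := by
  rw [QuadraticAlgebra.mk_eq_add_smul_omega, map_add, map_smul, act_omega]
  simp [Algebra.algebraMap_eq_smul_one]

theorem exII (hαβ : ∀ l, l ^ 2 ≠ α + β * l) (P : PII α β X) :
    ∃ S : Str k (QuadraticAlgebra k α β) 2 X.V, IsStrII α β X S := by
  haveI : Fact (∀ l, l ^ 2 ≠ α + β * l) := ⟨hαβ⟩
  letI mod : Module (QuadraticAlgebra k α β) (VD X) :=
    Module.compHom (VD X) (act P).toRingHom
  have smul_def : ∀ (l : QuadraticAlgebra k α β) (y : VD X), l • y = act P l y := fun _ _ => rfl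
  haveI tower : IsScalarTower k (QuadraticAlgebra k α β) (VD X) := ⟨fun c l y => by
    rw [smul_def, smul_def, map_smul]
    rfl⟩
  obtain ⟨W, hW⟩ := Submodule.exists_isCompl (VD X)
  let bA := Module.Basis.ofVectorSpace k W
  let bD := Module.Basis.ofVectorSpace (QuadraticAlgebra k α β) (VD X)
  let e : ((Module.Basis.ofVectorSpaceIndex k W →₀ k) ×
      (Module.Basis.ofVectorSpaceIndex (QuadraticAlgebra k α β) (VD X) →₀
        QuadraticAlgebra k α β)) ≃ₗ[k] X.V :=
    (LinearEquiv.prodCongr bA.repr.symm (bD.repr.symm.restrictScalars k)).trans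
      (Submodule.prodEquivOfIsCompl W (VD X) hW.symm)
  have he : ∀ z, e (0, z) = (bD.repr.symm z : X.V) := fun z => by
    simp [e]
  have hg : ∀ i, ∃ g : Fin 2 → X.V,
      ![0, 0, 0, 0, e (0, Finsupp.single i 1), g 0, g 1] ∈ X.Rel := fun i => by
    rw [he]
    obtain ⟨u, v, h⟩ := P.g2 _ _ (lam_mem P (bD.repr.symm (Finsupp.single i 1)))
    exact ⟨![u, v], h⟩
  choose g hg using hg
  let im : QuadraticAlgebra k α β →ₗ[k] k :=
    { toFun := fun z => z.im, map_add' := fun _ _ => rfl, map_smul' := fun _ _ => rfl }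
  let γ : (Module.Basis.ofVectorSpaceIndex (QuadraticAlgebra k α β) (VD X) →₀
        QuadraticAlgebra k α β) →ₗ[k] (Fin 2 → X.V) :=
    Finsupp.lsum k (fun i => (LinearMap.toSpanSingleton k (Fin 2 → X.V) (g i)) ∘ₗ im)
  have hγ : ∀ i c, γ (Finsupp.single i c) = c.im • g i := fun i c => by
    simp [γ, im]
  let Wr : Submodule k (Fin 2 → X.V) :=
    { carrier := {w | ![0, 0, w 0, w 1, 0, 0, 0] ∈ X.Rel}
      zero_mem' := by
        have : ![(0 : X.V), 0, 0, 0, 0, 0, 0] = 0 := by
          ext i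
          fin_cases i <;> rfl
        show ![(0 : X.V), 0, 0, 0, 0, 0, 0] ∈ X.Rel
        rw [this]
        exact zero_mem _
      add_mem' := fun {a b} ha hb => add7 ha hb 1 1 (by simp) (by simp) (by simp) (by simp)
        (by simp) (by simp) (by simp)
      smul_mem' := fun c {a} ha => add7 ha ha c 0 (by simp) (by simp) (by simp) (by simp)
        (by simp) (by simp) (by simp) }
  refine ⟨⟨_, _, e, Wr, γ⟩, ⟨fun w => Iff.rfl, fun z => ?_, fun y y' h => ?_, fun z => ?_⟩⟩
  · show ![e (0, z), e (0, (ω : QuadraticAlgebra k α β) • z), 0, 0, 0, 0, 0] ∈ X.Rel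
    rw [he, he, map_smul, smul_def, act_omega]
    exact lam_mem P _
  · refine ⟨bD.repr ⟨y, ⟨y', h⟩⟩, ?_⟩
    show e (0, _) = y
    rw [he]
    simp
  · show ![0, 0, 0, 0, e (0, z), γ ((ω : QuadraticAlgebra k α β) • z) 0 - β • γ z 0 + α • γ z 1,
      γ ((ω : QuadraticAlgebra k α β) • z) 1 + γ z 0] ∈ X.Rel
    induction z using Finsupp.induction_linear with
    | zero =>
      have : (![0, 0, 0, 0, e (0, 0), γ ((ω : QuadraticAlgebra k α β) • 0) 0 - β • γ 0 0 +
          α • γ 0 1, γ ((ω : QuadraticAlgebra k α β) • 0) 1 + γ 0 0] : Fin 7 → X.V) = 0 := by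
        have h0 : e (0, 0) = 0 := map_zero e
        rw [h0, smul_zero, map_zero]
        ext i
        fin_cases i <;> simp
      rw [this]
      exact zero_mem _
    | add f f' hf hf' =>
      refine add7 hf hf' 1 1 (by simp) (by simp) (by simp) (by simp) ?_ ?_ ?_
      · rw [he, he, he, map_add]
        simp
      · rw [smul_add, map_add, map_add]
        simp only [Pi.add_apply, one_smul, smul_add]
        abel
      · rw [smul_add, map_add, map_add]
        simp only [Pi.add_apply, one_smul]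
        abel
    | single i c =>
      obtain ⟨s, t⟩ := c
      obtain ⟨y', h1, h2⟩ := P.g1 _ _ _ (hg i)
      rw [he] at h1
      have h3 : y' = (lam P (bD.repr.symm (Finsupp.single i 1)) : X.V) :=
        uniq P h1 (lam_mem P _)
      refine add7 (hg i) h2 s t (by simp) (by simp) (by simp) (by simp) ?_ ?_ ?_
      · have h4 : (Finsupp.single i ⟨s, t⟩ : _ →₀ QuadraticAlgebra k α β) =
            (⟨s, t⟩ : QuadraticAlgebra k α β) • Finsupp.single i 1 := by
          simp
        rw [he, he, h3, h4, map_smul, smul_def, act_mk]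
        simp
      · rw [Finsupp.smul_single, hγ, hγ, smul_eq_mul, QuadraticAlgebra.omega_mul_mk]
        simp only [Pi.smul_apply, add_smul, mul_smul, smul_comm t α]
        abel
      · rw [Finsupp.smul_single, hγ, hγ, smul_eq_mul, QuadraticAlgebra.omega_mul_mk]
        simp only [Pi.smul_apply, add_smul, mul_smul, smul_comm t β, smul_add]
        abel

end

/-- PACKET CR-EXII. -/
theorem goalExII : GoalExII.{u} := fun _ _ _ _ h _ P => exII h P

end Pool.Agent.Helper33.CR
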