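import Pool.Agent.Helper48.CR.Goals

/-!
# FLOW: the lower bound for `FL`
-/

set_option autoImplicit false

open Pool.Agent.Helper48.CR

namespace Pool.Agent.Helper33.CR

theorem FL_cons (x : ℝ) (L : List ℝ) (j : ℕ) :
    FL (x :: L) j = (1 - j * x) * FL L j + j * x * FL L (j - 1) := rfl

theorem FL_zero : ∀ L : List ℝ, FL L 0 = 1
  | [] => by simp [FL]
  | x :: L => by
    rw [FL_cons, FL_zero L]
    simp

theorem descFactorial_aux (k i : ℕ) :
    (k + 1).descFactorial (i + 1) = k.descFactorial (i + 1) + (i + 1) * k.descFactorial i := by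
  rw [Nat.succ_descFactorial_succ, Nat.descFactorial_succ]
  rcases le_or_gt i k with h | h
  · rw [← Nat.add_mul]
    congr 1
    omega
  · rw [Nat.descFactorial_eq_zero_iff_lt.2 h]
    simp

/-- The base list. -/
theorem FL_base (M : ℕ) (xmin xm : ℝ) (h0 : 0 ≤ xmin) (hM : M * xm ≤ 1) :
    ∀ L : List ℝ, (∀ x ∈ L, xmin ≤ x ∧ x ≤ xm) → ∀ j ≤ M,
      (L.length.descFactorial j : ℝ) * xmin ^ j * (1 - M * xm) ^ L.length ≤ FL L j
  | [], _, j, _ => by
    rcases Nat.eq_zero_or_pos j with rfl | hj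
    · simp [FL]
    · have : Nat.descFactorial 0 j = 0 := Nat.descFactorial_eq_zero_iff_lt.2 hj
      simp [FL, this, hj.ne']
  | x :: L, hL, j, hj => by
    have ih := FL_base M xmin xm h0 hM L (fun y hy => hL y (List.mem_cons_of_mem _ hy))
    have hx := hL x List.mem_cons_self
    have hx0 : 0 ≤ x := h0.trans hx.1
    have hq : 0 ≤ 1 - M * xm := by linarith
    rcases Nat.eq_zero_or_pos j with rfl | hjpos
    · rw [FL_zero]
      simp only [Nat.descFactorial_zero, Nat.cast_one, pow_zero, mul_one, one_mul]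
      apply pow_le_one₀ hq
      have : 0 ≤ (M : ℝ) * xm := mul_nonneg (Nat.cast_nonneg _) (hx0.trans hx.2)
      linarith
    · obtain ⟨i, rfl⟩ : ∃ i, j = i + 1 := ⟨j - 1, by omega⟩
      rw [FL_cons, Nat.add_sub_cancel, List.length_cons, descFactorial_aux]
      have h1 := ih (i + 1) hj
      have h2 := ih i (by omega)
      set k := L.length with hk
      set q := (1 - M * xm) ^ k with hqk
      have hq0 : 0 ≤ q := pow_nonneg hq k
      have hA : 0 ≤ (k.descFactorial (i + 1) : ℝ) * xmin ^ (i + 1) * q := by positivity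
      have hB : 0 ≤ (k.descFactorial i : ℝ) * xmin ^ i * q := by positivity
      have hjM : ((i + 1 : ℕ) : ℝ) ≤ M := by exact_mod_cast hj
      have hjx : ((i + 1 : ℕ) : ℝ) * x ≤ M * xm :=
        mul_le_mul hjM hx.2 hx0 (Nat.cast_nonneg _)
      have e1 : (1 - M * xm) * ((k.descFactorial (i + 1) : ℝ) * xmin ^ (i + 1) * q) ≤
          (1 - ((i + 1 : ℕ) : ℝ) * x) * FL L (i + 1) :=
        mul_le_mul (by linarith) h1 hA (by linarith)
      have e2 : ((i + 1 : ℕ) : ℝ) * xmin * ((k.descFactorial i : ℝ) * xmin ^ i * q) ≤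
          ((i + 1 : ℕ) : ℝ) * x * FL L i :=
        mul_le_mul (mul_le_mul_of_nonneg_left hx.1 (Nat.cast_nonneg _)) h2 hB
          (mul_nonneg (Nat.cast_nonneg _) hx0)
      have e3 : (1 - M * xm) * (((i + 1 : ℕ) : ℝ) * xmin *
          ((k.descFactorial i : ℝ) * xmin ^ i * q)) ≤
          1 * (((i + 1 : ℕ) : ℝ) * xmin * ((k.descFactorial i : ℝ) * xmin ^ i * q)) := by
        apply mul_le_mul_of_nonneg_right
        · have : 0 ≤ (M : ℝ) * xm := mul_nonneg (Nat.cast_nonneg _) (hx0.trans hx.2)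
          linarith
        · positivity
      have e4 : ((k.descFactorial (i + 1) + (i + 1) * k.descFactorial i : ℕ) : ℝ) *
          xmin ^ (i + 1) * (1 - M * xm) ^ (k + 1) =
          (1 - M * xm) * ((k.descFactorial (i + 1) : ℝ) * xmin ^ (i + 1) * q) +
          (1 - M * xm) * (((i + 1 : ℕ) : ℝ) * xmin *
            ((k.descFactorial i : ℝ) * xmin ^ i * q)) := by
        rw [hqk]
        push_cast
        ring
      rw [e4]
      linarith

theorem pow_add_le (a h : ℝ) (ha : 0 ≤ a) (hh : 0 ≤ h) (i : ℕ) :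
    (a + h) ^ (i + 1) ≤ a ^ (i + 1) + (i + 1) * h * (a + h) ^ i := by
  induction i with
  | zero => simp
  | succ i ih =>
    have h1 : 0 ≤ (a + h) ^ i := pow_nonneg (by linarith) i
    have h2 : a * (a + h) ^ i ≤ (a + h) ^ (i + 1) := by
      rw [pow_succ, mul_comm]
      exact mul_le_mul_of_nonneg_left (by linarith) h1
    have h3 : a * (a + h) ^ (i + 1) ≤ a * (a ^ (i + 1) + (i + 1) * h * (a + h) ^ i) :=
      mul_le_mul_of_nonneg_left ih ha
    have h4 : ((i : ℝ) + 1) * h * (a * (a + h) ^ i) ≤ ((i : ℝ) + 1) * h * (a + h) ^ (i + 1) :=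
      mul_le_mul_of_nonneg_left h2 (by positivity)
    have h5 : (a + h) ^ (i + 1 + 1) = a * (a + h) ^ (i + 1) + h * (a + h) ^ (i + 1) := by ring
    rw [h5]
    push_cast
    have h6 : a ^ (i + 1 + 1) = a * a ^ (i + 1) := by ring
    rw [h6]
    nlinarith

/-- The step. -/
theorem FL_step (M : ℕ) (xm δ a0 a x : ℝ) (hδ : 0 < δ) (hδ1 : δ < 1) (ha0 : 0 < a0)
    (ha : a0 ≤ a) (ha1 : a ≤ 1) (hx : 0 ≤ x) (hxm : x ≤ xm) (hM : M * xm ≤ δ * a0)
    (hM1 : M * xm ≤ 1) (L : List ℝ) (hL : ∀ j ≤ M, a ^ j ≤ FL L j) :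
    ∀ j ≤ M, (a + (1 - a) * ((1 - δ) * x)) ^ j ≤ FL (x :: L) j := by
  intro j hj
  rcases Nat.eq_zero_or_pos j with rfl | hjpos
  · rw [FL_zero]
    simp
  obtain ⟨i, rfl⟩ : ∃ i, j = i + 1 := ⟨j - 1, by omega⟩
  have hapos : 0 < a := lt_of_lt_of_le ha0 ha
  set h := (1 - a) * ((1 - δ) * x) with hh
  have hδx : 0 ≤ (1 - δ) * x := mul_nonneg (by linarith) hx
  have hh0 : 0 ≤ h := mul_nonneg (by linarith) hδx
  have hhx : h ≤ x := by
    calc h ≤ 1 * ((1 - δ) * x) := mul_le_mul_of_nonneg_right (by linarith) hδx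
      _ ≤ 1 * (1 * x) := by
          apply mul_le_mul_of_nonneg_left _ zero_le_one
          exact mul_le_mul_of_nonneg_right (by linarith) hx
      _ = x := by ring
  have hjM : ((i + 1 : ℕ) : ℝ) ≤ M := by exact_mod_cast hj
  have hjx : ((i + 1 : ℕ) : ℝ) * x ≤ M * xm := mul_le_mul hjM hxm hx (Nat.cast_nonneg _)
  -- lower bound for `FL`
  have h1 : (1 - ((i + 1 : ℕ) : ℝ) * x) * a ^ (i + 1) + ((i + 1 : ℕ) : ℝ) * x * a ^ i ≤
      FL (x :: L) (i + 1) := by
    rw [FL_cons, Nat.add_sub_cancel]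
    apply add_le_add
    · exact mul_le_mul_of_nonneg_left (hL _ hj) (by linarith)
    · exact mul_le_mul_of_nonneg_left (hL i (by omega)) (mul_nonneg (Nat.cast_nonneg _) hx)
  -- upper bound for the power
  have h2 := pow_add_le a h hapos.le hh0 i
  have h3 : (a + h) ^ i ≤ a ^ i * Real.exp δ := by
    have e1 : a + h = a * (1 + h / a) := by field_simp
    rw [e1, mul_pow]
    apply mul_le_mul_of_nonneg_left _ (pow_nonneg hapos.le i)
    have e2 : 1 + h / a ≤ Real.exp (h / a) := by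
      have := Real.add_one_le_exp (h / a)
      linarith
    have e3 : (0 : ℝ) ≤ 1 + h / a := by positivity
    calc (1 + h / a) ^ i ≤ Real.exp (h / a) ^ i := pow_le_pow_left₀ e3 e2 i
      _ = Real.exp (i * (h / a)) := by rw [← Real.exp_nat_mul]
      _ ≤ Real.exp δ := by
        apply Real.exp_le_exp.2
        have e4 : (i : ℝ) * h ≤ δ * a := by
          calc (i : ℝ) * h ≤ ((i + 1 : ℕ) : ℝ) * x := by
                apply mul_le_mul _ hhx hh0 (Nat.cast_nonneg _)
                push_cast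
                linarith
            _ ≤ δ * a0 := hjx.trans hM
            _ ≤ δ * a := mul_le_mul_of_nonneg_left ha hδ.le
        rw [← mul_div_assoc, div_le_iff₀ hapos]
        exact e4
  have h4 : (1 - δ) * Real.exp δ ≤ 1 := by
    have e1 : 1 - δ ≤ Real.exp (-δ) := by
      have := Real.add_one_le_exp (-δ)
      linarith
    calc (1 - δ) * Real.exp δ ≤ Real.exp (-δ) * Real.exp δ :=
          mul_le_mul_of_nonneg_right e1 (Real.exp_pos _).le
      _ = 1 := by rw [← Real.exp_add]; simp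
  have h5 : ((i : ℝ) + 1) * h * (a + h) ^ i ≤ ((i : ℝ) + 1) * x * (1 - a) * a ^ i := by
    calc ((i : ℝ) + 1) * h * (a + h) ^ i ≤ ((i : ℝ) + 1) * h * (a ^ i * Real.exp δ) :=
          mul_le_mul_of_nonneg_left h3 (by positivity)
      _ = ((i : ℝ) + 1) * x * (1 - a) * a ^ i * ((1 - δ) * Real.exp δ) := by
          rw [hh]; ring
      _ ≤ ((i : ℝ) + 1) * x * (1 - a) * a ^ i * 1 := by
          apply mul_le_mul_of_nonneg_left h4
          have : 0 ≤ 1 - a := by linarith
          have h9 : 0 ≤ a ^ i := pow_nonneg hapos.le i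
          positivity
      _ = _ := by ring
  have h6 : (1 - ((i + 1 : ℕ) : ℝ) * x) * a ^ (i + 1) + ((i + 1 : ℕ) : ℝ) * x * a ^ i =
      a ^ (i + 1) + ((i : ℝ) + 1) * x * (1 - a) * a ^ i := by
    push_cast
    ring
  linarith

theorem flow (_h1 : FB1G) : FLOWG := by
  intro L0 L1 M xmin xm δ hxmin hδ hδ1 hL0 hL1 hlen hM1 hM2 j hj
  rcases Nat.eq_zero_or_pos M with hM0 | hMpos
  · have : j = 0 := by omega
    rw [this, FL_zero]
    simp
  have hMr : (1 : ℝ) ≤ M := by exact_mod_cast hMpos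
  have hkr : (2 : ℝ) * M ≤ L0.length := by exact_mod_cast hlen
  have hkpos : (2 : ℝ) ≤ L0.length := by linarith
  obtain ⟨y, hy⟩ : ∃ y, y ∈ L0 := by
    apply List.exists_mem_of_length_pos
    omega
  have hxm : xmin ≤ xm := (hL0 y hy).1.trans (hL0 y hy).2
  have hxm0 : 0 < xm := lt_of_lt_of_le hxmin hxm
  have hMxm : M * xm ≤ 1 / 4 := by
    have : (2 : ℝ) * (M * xm) ≤ L0.length * (M * xm) :=
      mul_le_mul_of_nonneg_right hkpos (by positivity)
    have h2 : (L0.length : ℝ) * (M * xm) = M * (L0.length * xm) := by ring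
    linarith
  set a0 : ℝ := L0.length * xmin / 4 with ha0
  have ha0pos : 0 < a0 := by
    have : (0 : ℝ) < L0.length := by linarith
    positivity
  have ha0le : a0 ≤ 1 := by
    have h1 : (L0.length : ℝ) * xmin ≤ L0.length * xm :=
      mul_le_mul_of_nonneg_left hxm (by linarith)
    have h2 : (L0.length : ℝ) * xm ≤ M * (L0.length * xm) := by
      have h3 : 0 ≤ (L0.length : ℝ) * xm := by positivity
      nlinarith
    rw [ha0]
    linarith
  -- the base list
  have hbase : ∀ j ≤ M, a0 ^ j ≤ FL L0 j := by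
    intro j hj
    rcases Nat.eq_zero_or_pos j with rfl | hjpos
    · rw [FL_zero]
      simp
    refine le_trans ?_ (FL_base M xmin xm hxmin.le (by linarith) L0 hL0 j hj)
    have e1 : (1 : ℝ) / 2 ≤ (1 - M * xm) ^ L0.length := by
      have h1 := one_add_mul_le_pow (a := -((M : ℝ) * xm)) (by linarith) L0.length
      have h2 : (1 : ℝ) + -((M : ℝ) * xm) = 1 - M * xm := by ring
      rw [h2] at h1
      have h3 : (L0.length : ℝ) * -((M : ℝ) * xm) = -(M * (L0.length * xm)) := by ring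
      rw [h3] at h1
      linarith
    have e2 : ((L0.length : ℝ) / 2) ^ j ≤ (L0.length.descFactorial j : ℝ) := by
      have h1 := Nat.pow_sub_le_descFactorial L0.length j
      have h2 : ((L0.length : ℝ) / 2) ^ j ≤ ((L0.length + 1 - j : ℕ) : ℝ) ^ j := by
        apply pow_le_pow_left₀ (by positivity)
        have hjM : (j : ℝ) ≤ M := by exact_mod_cast hj
        rw [Nat.cast_sub (by omega)]
        push_cast
        linarith
      refine h2.trans ?_
      exact_mod_cast h1
    have e3 : (2 : ℝ) ≤ 2 ^ j := by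
      calc (2 : ℝ) = 2 ^ 1 := by norm_num
        _ ≤ 2 ^ j := pow_le_pow_right₀ (by norm_num) hjpos
    have hxj : 0 < xmin ^ j := pow_pos hxmin j
    have e4 : a0 ^ j * 2 ^ j = ((L0.length : ℝ) / 2) ^ j * xmin ^ j := by
      rw [← mul_pow, ← mul_pow, ha0]
      congr 1
      ring
    have e5 : 0 ≤ a0 ^ j := pow_nonneg ha0pos.le j
    calc a0 ^ j ≤ a0 ^ j * 2 ^ j * (1 / 2) := by nlinarith
      _ = ((L0.length : ℝ) / 2) ^ j * xmin ^ j * (1 / 2) := by rw [e4]
      _ ≤ (L0.length.descFactorial j : ℝ) * xmin ^ j * (1 / 2) := by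
          apply mul_le_mul_of_nonneg_right _ (by norm_num)
          exact mul_le_mul_of_nonneg_right e2 hxj.le
      _ ≤ _ := by
          apply mul_le_mul_of_nonneg_left e1
          positivity
  -- induction on the second list
  have hind : ∀ L : List ℝ, (∀ x ∈ L, 0 ≤ x ∧ x ≤ xm) → ∃ a : ℝ, a0 ≤ a ∧ a ≤ 1 ∧
      (∀ j ≤ M, a ^ j ≤ FL (L ++ L0) j) ∧ 1 - a ≤ Real.exp (-((1 - δ) * L.sum)) := by
    intro L
    induction L with
    | nil =>
      intro _
      refine ⟨a0, le_rfl, ha0le, by simpa using hbase, ?_⟩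
      simp only [List.sum_nil, mul_zero, neg_zero, Real.exp_zero]
      linarith
    | cons x L ih =>
      intro hL
      obtain ⟨a, h1, h2, h3, h4⟩ := ih (fun y hy => hL y (List.mem_cons_of_mem _ hy))
      have hx := hL x List.mem_cons_self
      have hδx : 0 ≤ (1 - δ) * x := mul_nonneg (by linarith) hx.1
      have hx1 : x ≤ 1 := by
        have : xm ≤ M * xm := by nlinarith
        linarith [hx.2]
      have hδx1 : (1 - δ) * x ≤ 1 := by nlinarith [hx.1]
      refine ⟨a + (1 - a) * ((1 - δ) * x), ?_, ?_, ?_, ?_⟩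
      · have : 0 ≤ (1 - a) * ((1 - δ) * x) := mul_nonneg (by linarith) hδx
        linarith
      · have : (1 - a) * ((1 - δ) * x) ≤ (1 - a) * 1 :=
          mul_le_mul_of_nonneg_left hδx1 (by linarith)
        linarith
      · exact FL_step M xm δ a0 a x hδ hδ1 ha0pos h1 h2 hx.1 hx.2 hM2 (by linarith) (L ++ L0) h3
      · have e1 : 1 - (1 - δ) * x ≤ Real.exp (-((1 - δ) * x)) := by
          have := Real.add_one_le_exp (-((1 - δ) * x))
          linarith
        have e2 : 1 - (a + (1 - a) * ((1 - δ) * x)) = (1 - a) * (1 - (1 - δ) * x) := by ring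
        have e3 : Real.exp (-((1 - δ) * (x :: L).sum)) =
            Real.exp (-((1 - δ) * L.sum)) * Real.exp (-((1 - δ) * x)) := by
          rw [← Real.exp_add, List.sum_cons]
          congr 1
          ring
        rw [e2, e3]
        exact mul_le_mul h4 e1 (by linarith) (Real.exp_pos _).le
  obtain ⟨a, h1, h2, h3, h4⟩ := hind L1 hL1
  refine le_trans ?_ (h3 j hj)
  have hsum : 0 ≤ L1.sum := List.sum_nonneg (fun x hx => (hL1 x hx).1)
  have hexp : Real.exp (-((1 - δ) * L1.sum)) ≤ 1 := by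
    apply Real.exp_le_one_iff.2
    have : 0 ≤ (1 - δ) * L1.sum := mul_nonneg (by linarith) hsum
    linarith
  exact pow_le_pow_left₀ (by linarith) (by linarith) j

end Pool.Agent.Helper33.CR
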